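import Pool.Agent.H608R5.KL.Stm

set_option autoImplicit false

/-! # Variance decompositions -/

namespace Pool.Agent.TH811.KL

open Pool.Agent.H608R5.KL Finset

theorem k1_dsum {M : ℕ} (A B : I M → ℝ) :
    ∑ x, ∑ y, (A x - B y) ^ 2 =
      2 * M * (∑ x, A x ^ 2) - 2 * (∑ x, A x) * (∑ x, B x) + 2 * M * (∑ x, B x ^ 2) := by
  have hc : (Fintype.card (I M) : ℝ) = 2 * M := by
    simp [I]
  have h1 : ∀ x, ∑ y, (A x - B y) ^ 2 =
      2 * M * A x ^ 2 - 2 * A x * (∑ y, B y) + ∑ y, B y ^ 2 := by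
    intro x
    have e : ∀ y, (A x - B y) ^ 2 = A x ^ 2 - 2 * A x * B y + B y ^ 2 := fun y => by ring
    simp only [e, sum_add_distrib, sum_sub_distrib, ← mul_sum, sum_const, card_univ,
      nsmul_eq_mul, hc]
  simp only [h1, sum_add_distrib, sum_sub_distrib, ← mul_sum, ← sum_mul, sum_const, card_univ,
    nsmul_eq_mul, hc]

theorem k1_vr {M : ℕ} (hM : 1 ≤ M) (A : I M → ℝ) :
    2 * M * vr A = 2 * M * (∑ x, A x ^ 2) - (∑ x, A x) ^ 2 := by
  have hc : (Fintype.card (I M) : ℝ) = 2 * M := by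
    simp [I]
  have hM' : (0 : ℝ) < M := by exact_mod_cast hM
  have h1 : vr A = (∑ x, A x ^ 2) - 2 * mu A * (∑ x, A x) + 2 * M * mu A ^ 2 := by
    unfold vr
    have e : ∀ x, (A x - mu A) ^ 2 = A x ^ 2 - 2 * mu A * A x + mu A ^ 2 := fun x => by ring
    simp only [e, sum_add_distrib, sum_sub_distrib, ← mul_sum, sum_const, card_univ,
      nsmul_eq_mul, hc]
  rw [h1]
  unfold mu
  field_simp
  ring

theorem t_K1 : S_K1 := by
  intro M hM A B
  have hM' : (0 : ℝ) < M := by exact_mod_cast hM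
  have hc : (Fintype.card (I M) : ℝ) = 2 * M := by
    simp [I]
  have hA := k1_vr hM A
  have hB := k1_vr hM B
  have hmA : 2 * M * mu A = ∑ x, A x := by
    unfold mu; field_simp
  have hmB : 2 * M * mu B = ∑ x, B x := by
    unfold mu; field_simp
  have h2 : (∑ x, ∑ y, (A x - B y) ^ 2) =
      (2 * M) ^ 2 * (mu A - mu B) ^ 2 + 2 * M * (vr A + vr B) := by
    rw [k1_dsum, ← hmA, ← hmB]
    rw [← hmA] at hA
    rw [← hmB] at hB
    linear_combination -hA - hB
  refine ⟨?_, h2, ?_⟩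
  · rw [k1_dsum, hA]
    ring
  · have h3 : (∑ x, ∑ y, (1 - dlt x y) * (A x - B y) ^ 2) =
        (∑ x, ∑ y, (A x - B y) ^ 2) - ∑ x, (A x - B x) ^ 2 := by
      rw [← sum_sub_distrib]
      refine sum_congr rfl fun x _ => ?_
      have e : ∀ y, (1 - dlt x y) * (A x - B y) ^ 2 =
          (A x - B y) ^ 2 - (if x = y then (A x - B y) ^ 2 else 0) := by
        intro y
        unfold dlt
        split_ifs <;> ring
      simp only [e, sum_sub_distrib, sum_ite_eq, mem_univ, if_true]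
    have h4 : (∑ x, (A x + B x)) ^ 2 ≤ 2 * M * ∑ x, (A x + B x) ^ 2 := by
      have := sq_sum_le_card_mul_sum_sq (s := (univ : Finset (I M))) (f := fun x => A x + B x)
      rw [card_univ, hc] at this
      exact this
    have h5 : ∑ x, (A x + B x) ^ 2 + ∑ x, (A x - B x) ^ 2 =
        2 * (∑ x, A x ^ 2) + 2 * ∑ x, B x ^ 2 := by
      rw [← sum_add_distrib, mul_sum, mul_sum, ← sum_add_distrib]
      exact sum_congr rfl fun x _ => by ring
    rw [sum_add_distrib, ← hmA, ← hmB] at h4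
    rw [← hmA] at hA
    rw [← hmB] at hB
    have h6 : ∑ x, (A x - B x) ^ 2 ≤ 2 * M * (mu A - mu B) ^ 2 + 2 * (vr A + vr B) := by
      have h7 : 2 * (M : ℝ) * ∑ x, (A x - B x) ^ 2 ≤
          2 * M * (2 * M * (mu A - mu B) ^ 2 + 2 * (vr A + vr B)) := by
        have h8 : 2 * (M : ℝ) * ∑ x, (A x - B x) ^ 2 =
            2 * (2 * M * (∑ x, A x ^ 2)) + 2 * (2 * M * ∑ x, B x ^ 2) -
              2 * M * ∑ x, (A x + B x) ^ 2 := by
          linear_combination (2 * (M : ℝ)) * h5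
        rw [h8]
        nlinarith
      exact le_of_mul_le_mul_left h7 (by positivity)
    rw [h3, h2]
    linarith

end Pool.Agent.TH811.KL
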